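import Pool.Agent.U398.MV.Stm4b

/-!
# Project MV4 (helper398), package GS (helper67)

From the moments of the linear forms in the unfolded ordinates to the sums of `r` consecutive
normalised gaps in the normalisation of the problem.
-/

set_option autoImplicit false

namespace Pool.Agent.U67.MV4

open MeasureTheory Filter Topology Set
open scoped Nat
open Pool.Agent.U398.MV

/-- `uf (n + r) - uf n - r` -/
noncomputable def Yn (g : ℕ → ℝ) (r n : ℕ) : ℝ := uf g (n + r) - uf g n - r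

lemma gM_scale (k : ℕ) (v : ℝ) : gM k (4 * v) = 2 ^ k * gM k v := by
  unfold gM
  by_cases h : Even k
  · rw [if_pos h, if_pos h, mul_pow]
    have h2 : (4 : ℝ) ^ (k / 2) = 2 ^ k := by
      obtain ⟨j, rfl⟩ := h
      have : (j + j) / 2 = j := by omega
      rw [this, ← two_mul, pow_mul]
      norm_num
    rw [h2]
    ring
  · rw [if_neg h, if_neg h, mul_zero]

lemma VR_two (r : ℕ) : 4 * VR ![(1 / 2 : ℝ), -1 / 2] ![r, 0] = Real.log (1 + r) / Real.pi ^ 2 := by
  unfold VR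
  simp only [Fin.sum_univ_two, Matrix.cons_val_zero, Matrix.cons_val_one, Nat.cast_zero, sub_self,
    abs_zero, add_zero, Real.log_one, mul_zero, zero_add, sub_zero, zero_sub, abs_neg, Nat.abs_cast]
  field_simp
  ring

/-- the moments of `Y` -/
lemma th4_two {N : ℝ → ℕ} {g : ℕ → ℝ} (h : S_TH4 N g) (k : ℕ) (A ε : ℝ) (hk : 1 ≤ k) (hA : 1 ≤ A)
    (hε : 0 < ε) : ∃ C T0 : ℝ, 0 < C ∧ 10 ≤ T0 ∧ ∀ T : ℝ, T0 ≤ T → ∀ r : ℕ, 1 ≤ r →
    (r : ℝ) ≤ A * Real.log T →
    |(∑ n ∈ Finset.Ioc (N T) (N (2 * T)), Yn g r n ^ k) -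
      ((N (2 * T) : ℝ) - N T) * gM k (Real.log (1 + r) / Real.pi ^ 2)| ≤
    C * ((N (2 * T) : ℝ) - N T) * (1 + Real.log r) ^ (((k : ℝ) - 1) / 2 + ε) := by
  obtain ⟨C, T0, hC, hT0, hm⟩ := h k A ε hk hA hε
  refine ⟨2 ^ k * C, T0, by positivity, hT0, fun T hT r hr hrT => ?_⟩
  have h1 := hm T hT r hr hrT 2 ![(1 / 2 : ℝ), -1 / 2] ![r, 0] (by
      simp only [Fin.sum_univ_two, Matrix.cons_val_zero, Matrix.cons_val_one]
      norm_num [abs_of_pos]) (by
      simp only [Fin.sum_univ_two, Matrix.cons_val_zero, Matrix.cons_val_one]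
      norm_num) (by
      intro i
      fin_cases i <;> simp)
  have h2 : ∀ n, ∑ i, (![(1 / 2 : ℝ), -1 / 2] i) * (uf g (n + ![r, 0] i) - (![r, 0] i : ℕ)) =
      Yn g r n / 2 := by
    intro n
    simp only [Fin.sum_univ_two, Matrix.cons_val_zero, Matrix.cons_val_one, Nat.cast_zero, add_zero,
      Yn]
    ring
  simp only [h2] at h1
  rw [← VR_two, gM_scale]
  have h3 : (∑ n ∈ Finset.Ioc (N T) (N (2 * T)), Yn g r n ^ k) =
      2 ^ k * ∑ n ∈ Finset.Ioc (N T) (N (2 * T)), (Yn g r n / 2) ^ k := by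
    rw [Finset.mul_sum]
    refine Finset.sum_congr rfl fun n _ => ?_
    rw [← mul_pow]
    congr 1
    ring
  rw [h3]
  have h4 : (2 : ℝ) ^ k * (∑ n ∈ Finset.Ioc (N T) (N (2 * T)), (Yn g r n / 2) ^ k) -
      ((N (2 * T) : ℝ) - N T) * (2 ^ k * gM k (VR ![(1 / 2 : ℝ), -1 / 2] ![r, 0])) =
      2 ^ k * ((∑ n ∈ Finset.Ioc (N T) (N (2 * T)), (Yn g r n / 2) ^ k) -
      ((N (2 * T) : ℝ) - N T) * gM k (VR ![(1 / 2 : ℝ), -1 / 2] ![r, 0])) := by ring
  rw [h4, abs_mul, abs_of_pos (by positivity : (0 : ℝ) < 2 ^ k), mul_assoc, mul_assoc]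
  exact mul_le_mul_of_nonneg_left (by rw [← mul_assoc]; exact h1) (by positivity)

/-- `Q = s²` -/
noncomputable def sq (r : ℕ) : ℝ := Real.sqrt (1 + Real.log r)

lemma Q_one {r : ℕ} (hr : 1 ≤ r) : 1 ≤ 1 + Real.log r := by
  have : 0 ≤ Real.log r := Real.log_nonneg (by exact_mod_cast hr)
  linarith

lemma sq_one {r : ℕ} (hr : 1 ≤ r) : 1 ≤ sq r := by
  unfold sq
  exact Real.one_le_sqrt.2 (Q_one hr)

lemma sq_sq {r : ℕ} (hr : 1 ≤ r) : sq r ^ 2 = 1 + Real.log r :=
  Real.sq_sqrt (by linarith [Q_one hr])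

lemma sq_pow {r : ℕ} (hr : 1 ≤ r) (j : ℕ) : sq r ^ j = (1 + Real.log r) ^ ((j : ℝ) / 2) := by
  unfold sq
  rw [Real.sqrt_eq_rpow, ← Real.rpow_natCast, ← Real.rpow_mul (by linarith [Q_one hr])]
  congr 1
  ring

/-- the variance is at most `Q` -/
lemma v_le {r : ℕ} (hr : 1 ≤ r) : 0 ≤ Real.log (1 + r) / Real.pi ^ 2 ∧
    Real.log (1 + r) / Real.pi ^ 2 ≤ sq r ^ 2 := by
  have hr1 : (1 : ℝ) ≤ r := by exact_mod_cast hr
  have h0 : 0 ≤ Real.log (1 + r) := Real.log_nonneg (by linarith)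
  refine ⟨by positivity, ?_⟩
  rw [sq_sq hr]
  have h1 : Real.log (1 + r) ≤ 1 + Real.log r := by
    calc Real.log (1 + r) ≤ Real.log (2 * r) := Real.log_le_log (by linarith) (by linarith)
      _ = Real.log 2 + Real.log r := Real.log_mul (by norm_num) (by linarith)
      _ ≤ 1 + Real.log r := by linarith [Real.log_two_lt_d9]
  refine le_trans ?_ h1
  refine div_le_self h0 ?_
  nlinarith [Real.pi_gt_three]

/-- even moments -/
lemma even_mom {N : ℝ → ℕ} {g : ℕ → ℝ} (hN : Monotone N) (h : S_TH4 N g) (j : ℕ) (A : ℝ)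
    (hA : 1 ≤ A) : ∃ C T0 : ℝ, 0 < C ∧ 10 ≤ T0 ∧ ∀ T : ℝ, T0 ≤ T → ∀ r : ℕ, 1 ≤ r →
    (r : ℝ) ≤ A * Real.log T →
    (∑ n ∈ Finset.Ioc (N T) (N (2 * T)), Yn g r n ^ (2 * j)) ≤
    C * ((N (2 * T) : ℝ) - N T) * sq r ^ (2 * j) := by
  rcases Nat.eq_zero_or_pos j with rfl | hj
  · refine ⟨1, 10, one_pos, le_refl _, fun T hT r hr hrT => ?_⟩
    have hle : N T ≤ N (2 * T) := hN (by linarith)
    simp only [mul_zero, pow_zero, Finset.sum_const, Nat.card_Ioc, nsmul_eq_mul, mul_one, one_mul]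
    rw [Nat.cast_sub hle]
  · obtain ⟨C, T0, hC, hT0, hm⟩ := th4_two h (2 * j) A (1 / 4) (by omega) hA (by norm_num)
    refine ⟨((2 * j - 1)‼ : ℝ) + C, T0, by positivity, hT0, fun T hT r hr hrT => ?_⟩
    have hle : N T ≤ N (2 * T) := hN (by linarith)
    have hM : 0 ≤ (N (2 * T) : ℝ) - N T := by
      rw [sub_nonneg]
      exact_mod_cast hle
    have h1 := hm T hT r hr hrT
    have h2 : gM (2 * j) (Real.log (1 + r) / Real.pi ^ 2) ≤ ((2 * j - 1)‼ : ℝ) * sq r ^ (2 * j) := by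
      unfold gM
      rw [if_pos (even_two_mul j)]
      have h3 : 2 * j / 2 = j := by omega
      rw [h3, pow_mul]
      refine mul_le_mul_of_nonneg_left ?_ (by positivity)
      exact pow_le_pow_left₀ (v_le hr).1 (v_le hr).2 j
    have h4 : (1 + Real.log r) ^ ((((2 * j : ℕ) : ℝ) - 1) / 2 + 1 / 4) ≤ sq r ^ (2 * j) := by
      rw [sq_pow hr]
      refine Real.rpow_le_rpow_of_exponent_le (Q_one hr) ?_
      linarith
    have h5 := (abs_le.1 h1).2
    have h6 : C * ((N (2 * T) : ℝ) - N T) * (1 + Real.log r) ^ ((((2 * j : ℕ) : ℝ) - 1) / 2 + 1 / 4) ≤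
        C * ((N (2 * T) : ℝ) - N T) * sq r ^ (2 * j) :=
      mul_le_mul_of_nonneg_left h4 (mul_nonneg hC.le hM)
    have h7 := mul_le_mul_of_nonneg_left h2 hM
    calc (∑ n ∈ Finset.Ioc (N T) (N (2 * T)), Yn g r n ^ (2 * j))
        ≤ ((N (2 * T) : ℝ) - N T) * gM (2 * j) (Real.log (1 + r) / Real.pi ^ 2) +
          C * ((N (2 * T) : ℝ) - N T) *
            (1 + Real.log r) ^ ((((2 * j : ℕ) : ℝ) - 1) / 2 + 1 / 4) := by linarith
      _ ≤ ((N (2 * T) : ℝ) - N T) * (((2 * j - 1)‼ : ℝ) * sq r ^ (2 * j)) +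
          C * ((N (2 * T) : ℝ) - N T) * sq r ^ (2 * j) := by linarith
      _ = _ := by ring

/-- all absolute moments of `1 + |Y|` -/
lemma abs_mom {N : ℝ → ℕ} {g : ℕ → ℝ} (hN : Monotone N) (h : S_TH4 N g) (j : ℕ) (A : ℝ)
    (hA : 1 ≤ A) : ∃ C T0 : ℝ, 0 < C ∧ 10 ≤ T0 ∧ ∀ T : ℝ, T0 ≤ T → ∀ r : ℕ, 1 ≤ r →
    (r : ℝ) ≤ A * Real.log T →
    (∑ n ∈ Finset.Ioc (N T) (N (2 * T)), (1 + |Yn g r n|) ^ j) ≤
    C * ((N (2 * T) : ℝ) - N T) * sq r ^ j := by
  obtain ⟨C, T0, hC, hT0, hm⟩ := even_mom hN h j A hA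
  refine ⟨2 ^ (j - 1) * (2 + C), T0, by positivity, hT0, fun T hT r hr hrT => ?_⟩
  have hle : N T ≤ N (2 * T) := hN (by linarith)
  have hM : 0 ≤ (N (2 * T) : ℝ) - N T := by
    rw [sub_nonneg]
    exact_mod_cast hle
  have hs := sq_one hr
  have hsj : 1 ≤ sq r ^ j := one_le_pow₀ hs
  have hpt : ∀ n, (1 + |Yn g r n|) ^ j ≤
      2 ^ (j - 1) * (1 + sq r ^ j + Yn g r n ^ (2 * j) / sq r ^ j) := by
    intro n
    refine (add_pow_le zero_le_one (abs_nonneg _) j).trans ?_
    rw [one_pow]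
    refine mul_le_mul_of_nonneg_left ?_ (by positivity)
    have h1 : |Yn g r n| ^ j ≤ sq r ^ j + Yn g r n ^ (2 * j) / sq r ^ j := by
      have h2 : Yn g r n ^ (2 * j) = (|Yn g r n| ^ j) ^ 2 := by
        rw [← pow_mul, mul_comm j 2, pow_mul, pow_mul |Yn g r n|, sq_abs]
      rw [h2]
      set a := |Yn g r n| ^ j
      set b := sq r ^ j
      have hb : 0 < b := by linarith
      have ha : 0 ≤ a := by positivity
      rw [← sub_le_iff_le_add', le_div_iff₀ hb]
      nlinarith [sq_nonneg (a - b)]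
    linarith
  have hcard : (∑ n ∈ Finset.Ioc (N T) (N (2 * T)), (1 : ℝ)) = (N (2 * T) : ℝ) - N T := by
    simp only [Finset.sum_const, Nat.card_Ioc, nsmul_eq_mul, mul_one]
    rw [Nat.cast_sub hle]
  calc (∑ n ∈ Finset.Ioc (N T) (N (2 * T)), (1 + |Yn g r n|) ^ j)
      ≤ ∑ n ∈ Finset.Ioc (N T) (N (2 * T)),
        2 ^ (j - 1) * (1 + sq r ^ j + Yn g r n ^ (2 * j) / sq r ^ j) :=
        Finset.sum_le_sum fun n _ => hpt n
    _ = 2 ^ (j - 1) * ((1 + sq r ^ j) * (∑ n ∈ Finset.Ioc (N T) (N (2 * T)), (1 : ℝ)) +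
        (∑ n ∈ Finset.Ioc (N T) (N (2 * T)), Yn g r n ^ (2 * j)) / sq r ^ j) := by
        rw [← Finset.mul_sum, Finset.sum_add_distrib, Finset.sum_div, Finset.mul_sum]
        simp only [mul_one]
    _ ≤ 2 ^ (j - 1) * ((1 + sq r ^ j) * ((N (2 * T) : ℝ) - N T) +
        (C * ((N (2 * T) : ℝ) - N T) * sq r ^ (2 * j)) / sq r ^ j) := by
        rw [hcard]
        refine mul_le_mul_of_nonneg_left ?_ (by positivity)
        have := div_le_div_of_nonneg_right (hm T hT r hr hrT) (by linarith : 0 ≤ sq r ^ j)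
        linarith
    _ = 2 ^ (j - 1) * ((1 + sq r ^ j) * ((N (2 * T) : ℝ) - N T) +
        C * ((N (2 * T) : ℝ) - N T) * sq r ^ j) := by
        congr 2
        have h2j : sq r ^ (2 * j) = sq r ^ j * sq r ^ j := by rw [two_mul, pow_add]
        rw [div_eq_iff (by linarith), h2j]
        ring
    _ ≤ 2 ^ (j - 1) * (2 + C) * ((N (2 * T) : ℝ) - N T) * sq r ^ j := by
        have h9 : 0 ≤ ((N (2 * T) : ℝ) - N T) * (sq r ^ j - 1) := mul_nonneg hM (by linarith)
        have h8 : (1 + sq r ^ j) * ((N (2 * T) : ℝ) - N T) + C * ((N (2 * T) : ℝ) - N T) * sq r ^ j ≤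
            (2 + C) * ((N (2 * T) : ℝ) - N T) * sq r ^ j := by nlinarith
        calc 2 ^ (j - 1) * ((1 + sq r ^ j) * ((N (2 * T) : ℝ) - N T) +
              C * ((N (2 * T) : ℝ) - N T) * sq r ^ j)
            ≤ 2 ^ (j - 1) * ((2 + C) * ((N (2 * T) : ℝ) - N T) * sq r ^ j) :=
              mul_le_mul_of_nonneg_left h8 (by positivity)
          _ = _ := by ring

/-- the first difference against the second -/
lemma gap_id {g : ℕ → ℝ} {n r : ℕ} (h0 : 0 < g n) (h1 : 0 < g (n + r)) :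
    gsum g r n - r = Yn g r n + (g (n + r) - g n) * (1 + Real.log (2 * Real.pi)) / (2 * Real.pi) := by
  unfold gsum Yn uf Mf
  have hp : (0 : ℝ) < 2 * Real.pi := by positivity
  rw [Real.log_div h0.ne' hp.ne', Real.log_div h1.ne' hp.ne']
  field_simp
  ring

/-- the convexity of `Mf` -/
lemma Mf_ge {a b : ℝ} (ha : 0 < a) (hab : a ≤ b) :
    (b - a) * Real.log (a / (2 * Real.pi)) / (2 * Real.pi) ≤ Mf b - Mf a := by
  have hb : 0 < b := by linarith
  have hp : (0 : ℝ) < 2 * Real.pi := by positivity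
  have h1 : Real.log (b / (2 * Real.pi)) = Real.log (a / (2 * Real.pi)) + Real.log (b / a) := by
    rw [← Real.log_mul (by positivity) (by positivity)]
    congr 1
    field_simp
  have h2 : 1 - (b / a)⁻¹ ≤ Real.log (b / a) := Real.one_sub_inv_le_log_of_pos (by positivity)
  have h3 : b - a ≤ b * Real.log (b / a) := by
    calc b - a = b * (1 - (b / a)⁻¹) := by field_simp
      _ ≤ _ := mul_le_mul_of_nonneg_left h2 hb.le
  have h4 : Mf b - Mf a - (b - a) * Real.log (a / (2 * Real.pi)) / (2 * Real.pi) =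
      (b * Real.log (b / a) - (b - a)) / (2 * Real.pi) := by
    unfold Mf
    rw [h1]
    field_simp
    ring
  have h5 : 0 ≤ (b * Real.log (b / a) - (b - a)) / (2 * Real.pi) := div_nonneg (by linarith) hp.le
  linarith

/-- `log T / 2 ≤ log (T / 2π)` -/
lemma log_half {T : ℝ} (hT : 40 ≤ T) : Real.log T / 2 ≤ Real.log (T / (2 * Real.pi)) := by
  have hp : (0 : ℝ) < 2 * Real.pi := by positivity
  have hT0 : 0 < T := by linarith
  rw [Real.log_div hT0.ne' hp.ne']
  have h1 : 2 * Real.log (2 * Real.pi) ≤ Real.log T := by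
    rw [two_mul, ← Real.log_mul hp.ne' hp.ne']
    refine Real.log_le_log (by positivity) ?_
    nlinarith [Real.pi_lt_d4, Real.pi_pos]
  linarith

/-- the bound for the difference `θ` -/
lemma theta_le {N : ℝ → ℕ} {g : ℕ → ℝ} {C1 : ℝ} (h : Cnt N g C1) {A T : ℝ} (hA : 1 ≤ A)
    (hT : 40 ≤ T) {r n : ℕ} (hrT : (r : ℝ) ≤ A * Real.log T)
    (hn : n ∈ Finset.Ioc (N T) (N (2 * T))) :
    ∃ θ : ℝ, gsum g r n - r = Yn g r n + θ ∧ 0 ≤ θ ∧
      θ ≤ 13 * A * (1 + (1 + |Yn g r n|) / Real.log T) := by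
  obtain ⟨hn1, hn2⟩ := Finset.mem_Ioc.1 hn
  have hn0 : 1 ≤ n := by omega
  have hL : 1 ≤ Real.log T := by
    rw [Real.le_log_iff_exp_le (by linarith)]
    linarith [Real.exp_one_lt_d9]
  have hg1 : T < g n := by
    by_contra hc
    have := (h.gc n hn0 T).1 (not_lt.1 hc)
    omega
  have hg2 : g n ≤ g (n + r) := by
    have h1 := (h.gc (n + r) (by omega) (g (n + r))).1 le_rfl
    exact (h.gc n hn0 (g (n + r))).2 (by omega)
  have h0 : 0 < g n := by linarith
  have hp : (0 : ℝ) < 2 * Real.pi := by positivity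
  have hMf := Mf_ge h0 hg2
  have hY : Mf (g (n + r)) - Mf (g n) = Yn g r n + r := by
    unfold Yn uf
    ring
  rw [hY] at hMf
  have hG : 0 ≤ g (n + r) - g n := by linarith
  have hlog : Real.log T / 2 ≤ Real.log (g n / (2 * Real.pi)) :=
    (log_half hT).trans (Real.log_le_log (by positivity)
      (div_le_div_of_nonneg_right hg1.le hp.le))
  have h1 : (g (n + r) - g n) * (Real.log T / 2) / (2 * Real.pi) ≤ Yn g r n + r := by
    refine le_trans ?_ hMf
    exact div_le_div_of_nonneg_right (mul_le_mul_of_nonneg_left hlog hG) hp.le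
  have h2 : g (n + r) - g n ≤ 13 * ((Yn g r n + r) / Real.log T) := by
    rw [div_le_iff₀ hp] at h1
    have hYr : 0 ≤ Yn g r n + r := by
      refine le_trans ?_ hMf
      refine div_nonneg (mul_nonneg hG ?_) hp.le
      linarith
    rw [← mul_div_assoc, le_div_iff₀ (by linarith)]
    have h3 : (Yn g r n + r) * (4 * Real.pi) ≤ (Yn g r n + r) * 13 :=
      mul_le_mul_of_nonneg_left (by linarith [Real.pi_lt_d4]) hYr
    nlinarith
  have hl0 : 0 ≤ Real.log (2 * Real.pi) := Real.log_nonneg (by linarith [Real.pi_gt_three])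
  have hl1 : 1 + Real.log (2 * Real.pi) ≤ 2 * Real.pi := by
    linarith [Real.log_le_sub_one_of_pos hp]
  refine ⟨_, gap_id h0 (by linarith), by positivity, ?_⟩
  calc (g (n + r) - g n) * (1 + Real.log (2 * Real.pi)) / (2 * Real.pi)
      ≤ (g (n + r) - g n) * (2 * Real.pi) / (2 * Real.pi) :=
        div_le_div_of_nonneg_right (mul_le_mul_of_nonneg_left hl1 hG) hp.le
    _ = g (n + r) - g n := by field_simp
    _ ≤ 13 * ((Yn g r n + r) / Real.log T) := h2
    _ = 13 * (Yn g r n / Real.log T + r / Real.log T) := by ring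
    _ ≤ 13 * ((1 + |Yn g r n|) / Real.log T + A) := by
        have h5 : Yn g r n / Real.log T ≤ (1 + |Yn g r n|) / Real.log T :=
          div_le_div_of_nonneg_right (by linarith [le_abs_self (Yn g r n)]) (by linarith)
        have h6 : r / Real.log T ≤ A := by
          rw [div_le_iff₀ (by linarith)]
          exact hrT
        linarith
    _ ≤ 13 * A * (1 + (1 + |Yn g r n|) / Real.log T) := by
        have h7 : 0 ≤ (1 + |Yn g r n|) / Real.log T := by positivity
        nlinarith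

theorem t_GS (N : ℝ → ℕ) (g : ℕ → ℝ) : J_GS N g := by
  rintro ⟨C1, hC1, hcnt⟩ h4 k A ε hk hA hε
  obtain ⟨C, T0, hC, hT0, hm⟩ := th4_two h4 k A ε hk hA hε
  obtain ⟨D, T1, hD, hT1, hm1⟩ := abs_mom hcnt.mono h4 (k - 1) A hA
  obtain ⟨E, T2, hE, hT2, hm2⟩ := abs_mom hcnt.mono h4 k A hA
  have hA0 : 0 < A := by linarith
  have hlA : 0 ≤ Real.log A := Real.log_nonneg hA
  set K : ℝ := 13 * A with hK
  have hK0 : 0 < K := by positivity
  set B : ℝ := k * K * (1 + 2 * K) ^ (k - 1) with hB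
  have hB0 : 0 ≤ B := by positivity
  refine ⟨C + B * (D + E * (2 + Real.log A)), max (max T0 T1) (max T2 40), by positivity,
    le_trans hT0 (le_trans (le_max_left _ _) (le_max_left _ _)), fun T hT r hr hrT => ?_⟩
  have e0 : T0 ≤ T := le_trans (le_trans (le_max_left _ _) (le_max_left _ _)) hT
  have e1 : T1 ≤ T := le_trans (le_trans (le_max_right _ _) (le_max_left _ _)) hT
  have e2 : T2 ≤ T := le_trans (le_trans (le_max_left _ _) (le_max_right _ _)) hT
  have e3 : 40 ≤ T := le_trans (le_trans (le_max_right _ _) (le_max_right _ _)) hT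
  have hL : 1 ≤ Real.log T := by
    rw [Real.le_log_iff_exp_le (by linarith)]
    linarith [Real.exp_one_lt_d9]
  have hle : N T ≤ N (2 * T) := hcnt.mono (by linarith)
  set M : ℝ := (N (2 * T) : ℝ) - N T with hM
  have hM0 : 0 ≤ M := by
    rw [hM, sub_nonneg]
    exact_mod_cast hle
  have hs := sq_one hr
  have hr1 : (1 : ℝ) ≤ r := by exact_mod_cast hr
  -- the size of `s`
  have hsL : sq r ≤ (2 + Real.log A) * Real.log T := by
    have h1 : sq r ≤ sq r ^ 2 := by nlinarith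
    have h2 : Real.log r ≤ Real.log A + Real.log (Real.log T) := by
      rw [← Real.log_mul (by linarith) (by linarith)]
      exact Real.log_le_log (by linarith) hrT
    have h3 : Real.log (Real.log T) ≤ Real.log T - 1 := Real.log_le_sub_one_of_pos (by linarith)
    rw [sq_sq hr] at h1
    nlinarith [mul_nonneg hlA (by linarith : 0 ≤ Real.log T - 1)]
  -- pointwise
  have hpt : ∀ n ∈ Finset.Ioc (N T) (N (2 * T)), |(gsum g r n - r) ^ k - Yn g r n ^ k| ≤
      B * ((1 + |Yn g r n|) ^ (k - 1) + (1 + |Yn g r n|) ^ k / Real.log T) := by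
    intro n hn
    obtain ⟨θ, h1, h2, h3⟩ := theta_le hcnt hA e3 hrT hn
    rw [h1]
    set Y := Yn g r n
    set a := 1 + |Y| with ha
    have ha1 : 1 ≤ a := by
      have := abs_nonneg Y
      linarith
    have haL : a / Real.log T ≤ a := div_le_self (by linarith) hL
    have h5 : |Y| + θ ≤ (1 + 2 * K) * a := by
      have h50 : θ ≤ K * (a + a) :=
        h3.trans (mul_le_mul_of_nonneg_left (by linarith) hK0.le)
      linarith
    have h6 := abs_pow_sub_pow_le (Y + θ) Y k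
    have h7 : Y + θ - Y = θ := by ring
    rw [h7, abs_of_nonneg h2] at h6
    have h8 : max |Y + θ| |Y| ≤ |Y| + θ := by
      refine max_le ?_ (by linarith)
      have := abs_add_le Y θ
      rw [abs_of_nonneg h2] at this
      exact this
    have h9 : max |Y + θ| |Y| ^ (k - 1) ≤ ((1 + 2 * K) * a) ^ (k - 1) :=
      pow_le_pow_left₀ (le_max_of_le_right (abs_nonneg _)) (h8.trans h5) _
    calc |(Y + θ) ^ k - Y ^ k| ≤ θ * k * max |Y + θ| |Y| ^ (k - 1) := h6
      _ ≤ (K * (1 + a / Real.log T)) * k * ((1 + 2 * K) * a) ^ (k - 1) := by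
          refine mul_le_mul (mul_le_mul_of_nonneg_right h3 (Nat.cast_nonneg k)) h9
            (pow_nonneg (le_max_of_le_right (abs_nonneg _)) _) (by positivity)
      _ = B * (a ^ (k - 1) + a ^ k / Real.log T) := by
          have h10 : a ^ k = a * a ^ (k - 1) := by
            rw [← pow_succ']
            congr 1
            omega
          rw [hB, mul_pow, h10]
          ring
  have hsum : |(∑ n ∈ Finset.Ioc (N T) (N (2 * T)), (gsum g r n - r) ^ k) -
      ∑ n ∈ Finset.Ioc (N T) (N (2 * T)), Yn g r n ^ k| ≤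
      B * (D + E * (2 + Real.log A)) * M * sq r ^ (k - 1) := by
    rw [← Finset.sum_sub_distrib]
    calc |∑ n ∈ Finset.Ioc (N T) (N (2 * T)), ((gsum g r n - r) ^ k - Yn g r n ^ k)|
        ≤ ∑ n ∈ Finset.Ioc (N T) (N (2 * T)), |(gsum g r n - r) ^ k - Yn g r n ^ k| :=
          Finset.abs_sum_le_sum_abs _ _
      _ ≤ ∑ n ∈ Finset.Ioc (N T) (N (2 * T)),
          B * ((1 + |Yn g r n|) ^ (k - 1) + (1 + |Yn g r n|) ^ k / Real.log T) :=
          Finset.sum_le_sum hpt
      _ = B * ((∑ n ∈ Finset.Ioc (N T) (N (2 * T)), (1 + |Yn g r n|) ^ (k - 1)) +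
          (∑ n ∈ Finset.Ioc (N T) (N (2 * T)), (1 + |Yn g r n|) ^ k) / Real.log T) := by
          rw [← Finset.mul_sum, Finset.sum_add_distrib, Finset.sum_div]
      _ ≤ B * (D * M * sq r ^ (k - 1) + E * M * sq r ^ k / Real.log T) := by
          refine mul_le_mul_of_nonneg_left ?_ hB0
          have h1 := hm1 T e1 r hr hrT
          have h2 := div_le_div_of_nonneg_right (hm2 T e2 r hr hrT)
            (by linarith : 0 ≤ Real.log T)
          linarith
      _ ≤ B * (D * M * sq r ^ (k - 1) + E * M * ((2 + Real.log A) * sq r ^ (k - 1))) := by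
          refine mul_le_mul_of_nonneg_left ?_ hB0
          have h1 : sq r ^ k / Real.log T ≤ (2 + Real.log A) * sq r ^ (k - 1) := by
            rw [div_le_iff₀ (by linarith)]
            have h10 : sq r ^ k = sq r * sq r ^ (k - 1) := by
              rw [← pow_succ']
              congr 1
              omega
            rw [h10]
            calc sq r * sq r ^ (k - 1) ≤ (2 + Real.log A) * Real.log T * sq r ^ (k - 1) :=
                  mul_le_mul_of_nonneg_right hsL (by positivity)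
              _ = _ := by ring
          have h2 := mul_le_mul_of_nonneg_left h1 (mul_nonneg hE.le hM0)
          have h3 : E * M * sq r ^ k / Real.log T = E * M * (sq r ^ k / Real.log T) := by ring
          linarith
      _ = _ := by ring
  have hexp : sq r ^ (k - 1) ≤ (1 + Real.log r) ^ (((k : ℝ) - 1) / 2 + ε) := by
    rw [sq_pow hr]
    refine Real.rpow_le_rpow_of_exponent_le (Q_one hr) ?_
    rw [Nat.cast_sub hk, Nat.cast_one]
    linarith
  have hmain := hm T e0 r hr hrT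
  calc |(∑ n ∈ Finset.Ioc (N T) (N (2 * T)), (gsum g r n - r) ^ k) -
        M * gM k (Real.log (1 + r) / Real.pi ^ 2)|
      = |((∑ n ∈ Finset.Ioc (N T) (N (2 * T)), (gsum g r n - r) ^ k) -
        ∑ n ∈ Finset.Ioc (N T) (N (2 * T)), Yn g r n ^ k) +
        ((∑ n ∈ Finset.Ioc (N T) (N (2 * T)), Yn g r n ^ k) -
        M * gM k (Real.log (1 + r) / Real.pi ^ 2))| := by
        congr 1
        ring
    _ ≤ _ := abs_add_le _ _
    _ ≤ B * (D + E * (2 + Real.log A)) * M * sq r ^ (k - 1) +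
        C * M * (1 + Real.log r) ^ (((k : ℝ) - 1) / 2 + ε) := add_le_add hsum hmain
    _ ≤ B * (D + E * (2 + Real.log A)) * M * (1 + Real.log r) ^ (((k : ℝ) - 1) / 2 + ε) +
        C * M * (1 + Real.log r) ^ (((k : ℝ) - 1) / 2 + ε) := by
        have h1 : 0 ≤ B * (D + E * (2 + Real.log A)) * M := by positivity
        have := mul_le_mul_of_nonneg_left hexp h1
        linarith
    _ = _ := by ring

end Pool.Agent.U67.MV4
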